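import Pool.Agent.Helper88.GU.St

/-!
# Project GU2 (MP_b1e6de_al), module XI: the first entry, graded version of E1
-/

set_option autoImplicit false

namespace Pool.Agent.Helper41.GU2

open Polynomial
open Pool.Agent.Helper91.GU
open Pool.Agent.Helper88.GU

universe u

private noncomputable def th_XI {A : Type u} [CommRing A] (G : Gr A) (f : A) : A :=
  (derivative (G.Γ f)).eval 1

private lemma th_mul_XI {A : Type u} [CommRing A] (G : Gr A) (f g : A) :
    th_XI G (f * g) = th_XI G f * g + f * th_XI G g := by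
  unfold th_XI
  rw [map_mul, derivative_mul, eval_add, eval_mul, eval_mul, G.sum, G.sum]

private lemma th_sum_XI {A : Type u} [CommRing A] (G : Gr A) {ι : Type} (t : Finset ι)
    (f : ι → A) : th_XI G (∑ j ∈ t, f j) = ∑ j ∈ t, th_XI G (f j) := by
  unfold th_XI
  rw [map_sum, derivative_sum, eval_finset_sum]

theorem hXI (hB0 : StB0.{u}) : StXI.{u} := by
  intro A _ G s c' k a hk ha h1a hEE
  obtain ⟨I, hI⟩ : ∃ I, I = idl c' := ⟨_, rfl⟩
  rw [← hI] at h1a hEE
  have hcI : ∀ j, c' j ∈ I := by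
    intro j
    rw [hI]
    exact Ideal.subset_span ⟨j, rfl⟩
  obtain ⟨b, hb⟩ : ∃ b : Fin (s + 1) → A, ∑ j, b j * c' j = 1 - a := by
    have h := h1a
    rw [hI, idl, Ideal.mem_span_range_iff_exists_fun] at h
    exact h
  have hma : Ideal.Quotient.mk I a = 1 := by
    rw [← Ideal.Quotient.eq_zero_iff_mem, map_sub, map_one, sub_eq_zero] at h1a
    exact h1a.symm
  -- the derivation
  have hth : ∑ j, (th_XI G (b j) * c' j + b j * th_XI G (c' j)) = -(k * a) := by
    have h1 : th_XI G (∑ j, b j * c' j) = -(k * a) := by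
      rw [hb]
      unfold th_XI
      rw [map_sub, map_one, ha, derivative_sub, derivative_one, zero_sub, derivative_C_mul,
        derivative_X_pow, eval_neg, eval_mul, eval_mul, eval_pow, eval_X, eval_C, one_pow]
      simp
      ring
    rw [th_sum_XI] at h1
    rw [← h1]
    exact Finset.sum_congr rfl fun j _ => (th_mul_XI G _ _).symm
  have hmod : ∑ j, Ideal.Quotient.mk I (b j) * Ideal.Quotient.mk I (th_XI G (c' j)) =
      -((k : ℕ) : A ⧸ I) := by
    have h1 := congrArg (Ideal.Quotient.mk I) hth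
    rw [map_sum, map_neg, map_mul, hma, mul_one, map_natCast] at h1
    rw [← h1]
    refine Finset.sum_congr rfl fun j _ => ?_
    rw [map_add, map_mul, map_mul, Ideal.Quotient.eq_zero_iff_mem.2 (hcI j), mul_zero, zero_add]
  have hkI : IsUnit ((k : ℕ) : A ⧸ I) := by
    have h1 := hk.map (Ideal.Quotient.mk I)
    rwa [map_natCast] at h1
  obtain ⟨k', hk'⟩ := hkI.exists_right_inv
  have hUm : Um (fun j => Ideal.Quotient.mk I (b j)) := by
    refine ⟨fun j => -(Ideal.Quotient.mk I (th_XI G (c' j)) * k'), ?_⟩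
    unfold dotProduct
    have h1 : ∑ j, Ideal.Quotient.mk I (b j) * -(Ideal.Quotient.mk I (th_XI G (c' j)) * k') =
        -(∑ j, Ideal.Quotient.mk I (b j) * Ideal.Quotient.mk I (th_XI G (c' j))) * k' := by
      rw [← Finset.sum_neg_distrib, Finset.sum_mul]
      exact Finset.sum_congr rfl fun j _ => by ring
    rw [h1, hmod, neg_neg, hk']
  obtain ⟨ε, hε, hbε⟩ := hEE _ hUm
  -- inverse and lift
  obtain ⟨-, -, -, -, -, hEl, -⟩ := hB0 (A ⧸ I) (A ⧸ I) (RingHom.id _) (Fin (s + 1))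
  obtain ⟨-, hdet, hinv, -, -⟩ := hEl ε hε
  obtain ⟨-, -, -, htr, -⟩ := hEl ε⁻¹ hinv
  obtain ⟨-, -, -, -, -, -, hlift⟩ := hB0 A (A ⧸ I) (Ideal.Quotient.mk I) (Fin (s + 1))
  obtain ⟨ε', hε', hε'm⟩ := hlift Ideal.Quotient.mk_surjective _ htr
  have hbj : ∀ j, ε' j 0 - b j ∈ I := by
    intro j
    rw [← Ideal.Quotient.eq_zero_iff_mem, map_sub, sub_eq_zero]
    have h1 : Ideal.Quotient.mk I (ε' j 0) = ε⁻¹ 0 j := by
      have h2 := congrFun (congrFun hε'm j) 0
      rw [Matrix.map_apply, Matrix.transpose_apply] at h2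
      exact h2
    have h3 : (fun j => Ideal.Quotient.mk I (b j)) = Matrix.vecMul (Pi.single 0 1) ε⁻¹ := by
      rw [← hbε, Matrix.vecMul_vecMul, Matrix.mul_nonsing_inv _ (by rw [hdet]; exact isUnit_one),
        Matrix.vecMul_one]
    have h4 := congrFun h3 j
    rw [Matrix.single_one_vecMul] at h4
    rw [h1]
    exact h4.symm
  obtain ⟨-, -, -, -, -, hElΓ, -⟩ := hB0 A A[X] G.Γ (Fin (s + 1))
  refine ⟨ε'.map G.Γ, (hElΓ ε' hε').2.2.2.2, ?_⟩
  have hmem : Matrix.vecMul c' ε' 0 - (1 - a) ∈ I ^ 2 := by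
    have h1 : Matrix.vecMul c' ε' 0 - (1 - a) = ∑ j, c' j * (ε' j 0 - b j) := by
      rw [← hb]
      unfold Matrix.vecMul dotProduct
      rw [← Finset.sum_sub_distrib]
      exact Finset.sum_congr rfl fun j _ => by ring
    rw [h1, sq]
    exact Ideal.sum_mem _ fun j _ => Ideal.mul_mem_mul (hcI j) (hbj j)
  have hmap : G.Γ (Matrix.vecMul c' ε' 0 - (1 - a)) ∈ idl (fun j => G.Γ (c' j)) ^ 2 := by
    have h1 := Ideal.mem_map_of_mem G.Γ hmem
    rw [Ideal.map_pow, hI, idl, Ideal.map_span, ← Set.range_comp] at h1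
    exact h1
  have hfin : Matrix.vecMul (fun j => G.Γ (c' j)) (ε'.map G.Γ) 0 - (1 - C a * X ^ k) =
      G.Γ (Matrix.vecMul c' ε' 0 - (1 - a)) := by
    rw [map_sub, map_sub, map_one, ha]
    congr 1
    unfold Matrix.vecMul dotProduct
    rw [map_sum]
    exact Finset.sum_congr rfl fun j _ => by rw [map_mul]; rfl
  rw [hfin]
  exact hmap

end Pool.Agent.Helper41.GU2
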